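import Pool.Agent.K3h44.RQ.Stm3

/-! Brick ALG3 of the project RQ: three equations have no common solution. -/

set_option autoImplicit false

namespace Pool.Agent.K3h12.RQ

open Pool.Agent.K3h44.RQ

theorem num_ne {p : ℕ} [hp : Fact p.Prime] (h7 : 7 ≤ p) {k : ℕ} (hk0 : 0 < k) (hk : k < 7) :
    (k : ZMod p) ≠ 0 := by
  intro h
  have h1 := (ZMod.natCast_eq_zero_iff _ _).1 h
  have h2 := Nat.le_of_dvd hk0 h1
  omega

theorem t_ALG3 : S_ALG3 := by
  intro p _ h7 A B G hA hB hG h1 h2 h3
  have two : (2 : ZMod p) ≠ 0 := by
    have := num_ne (p := p) h7 (k := 2) (by norm_num) (by norm_num)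
    exact_mod_cast this
  have five : (5 : ZMod p) ≠ 0 := by
    have := num_ne (p := p) h7 (k := 5) (by norm_num) (by norm_num)
    exact_mod_cast this
  have hAG : A ≠ G := by
    rintro rfl
    have : 2 * A * B = 0 := by linear_combination h3
    rcases mul_eq_zero.1 this with h | h
    · rcases mul_eq_zero.1 h with h | h
      · exact two h
      · exact hA h
    · exact hB h
  have hAB : A ≠ B := by
    rintro rfl
    have : 2 * A * G = 0 := by linear_combination h1
    rcases mul_eq_zero.1 this with h | h
    · rcases mul_eq_zero.1 h with h | h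
      · exact two h
      · exact hA h
    · exact hG h
  have hBG : B ≠ G := by
    rintro rfl
    have : 2 * B * A = 0 := by linear_combination h2
    rcases mul_eq_zero.1 this with h | h
    · rcases mul_eq_zero.1 h with h | h
      · exact two h
      · exact hB h
    · exact hA h
  have e1 : (A - G) * (2 * A - 3 * B + 2 * G) = 0 := by linear_combination h2 - h1
  have e2 : (B - A) * (2 * B - 3 * G + 2 * A) = 0 := by linear_combination h3 - h2
  have f1 : 2 * A - 3 * B + 2 * G = 0 := by
    rcases mul_eq_zero.1 e1 with h | h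
    · exact absurd (sub_eq_zero.1 h) hAG
    · exact h
  have f2 : 2 * B - 3 * G + 2 * A = 0 := by
    rcases mul_eq_zero.1 e2 with h | h
    · exact absurd (sub_eq_zero.1 h) hAB.symm
    · exact h
  have f3 : 5 * (B - G) = 0 := by linear_combination f2 - f1
  rcases mul_eq_zero.1 f3 with h | h
  · exact five h
  · exact hBG (sub_eq_zero.1 h)

end Pool.Agent.K3h12.RQ
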